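import Pool.Agent.helper48.PR.SpecC

set_option autoImplicit false

namespace Pool.Agent.PR

open Matrix

/-- the value of the root `ε_i - ε_j` on `h_{kl}` -/
def C9a_rt {n : ℕ} (F : Type) [Field F] (k l i j : Fin n) : F :=
  (if k = i then 1 else 0) - (if k = j then 1 else 0) - (if l = i then 1 else 0) +
    (if l = j then 1 else 0)

theorem C9a_root (h5 : C5_stmt) {n : ℕ} (hn : 3 ≤ n) {F : Type} [Field F]
    (M : Fin n → Fin n → Matrix (Fin n) (Fin n) F) (hM : IsFam M) (k l i j : Fin n)
    (hkl : k ≠ l) (hij : i ≠ j) :
    hh M k l * M i j - M i j * hh M k l = C9a_rt F k l i j • M i j := by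
  obtain ⟨a1, a2, a3, -, -, a6⟩ := h5 n hn F M hM
  unfold C9a_rt
  by_cases hki : k = i
  · subst hki
    by_cases hlj : l = j
    · subst hlj
      rw [a1 _ _ hkl]
      simp only [if_true, if_neg hkl, if_neg hkl.symm]
      rw [two_nsmul]
      rw [show (1 : F) - 0 - 0 + 1 = 1 + 1 by ring, add_smul, one_smul]
    · rw [(a2 k l j hkl hlj hij).1]
      simp only [if_true, if_neg hij, if_neg hkl.symm, if_neg hlj]
      rw [show (1 : F) - 0 - 0 + 0 = 1 by ring, one_smul]
  · by_cases hlj : l = j
    · subst hlj
      rw [(a2 k l i hkl (Ne.symm hij) hki).2.2.2]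
      simp only [if_true, if_neg hki, if_neg hkl, if_neg (Ne.symm hij)]
      rw [show (0 : F) - 0 - 0 + 1 = 1 by ring, one_smul]
    · by_cases hkj : k = j
      · subst hkj
        by_cases hli : l = i
        · subst hli
          rw [a6, neg_mul, mul_neg]
          have := a1 _ _ hij
          simp only [if_true, if_neg hki, if_neg hlj]
          rw [show (0 : F) - 1 - 1 + 0 = -(1 + 1) by ring, neg_smul, add_smul, one_smul,
            ← two_nsmul, ← this]
          abel
        · rw [(a2 k l i hkl hli hki).2.2.1]
          simp only [if_true, if_neg hki, if_neg hli, if_neg hlj]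
          rw [show (0 : F) - 1 - 0 + 0 = -1 by ring, neg_smul, one_smul]
      · by_cases hli : l = i
        · subst hli
          rw [(a2 k l j hkl hij hkj).2.1]
          simp only [if_true, if_neg hki, if_neg hkj, if_neg hlj]
          rw [show (0 : F) - 0 - 1 + 0 = -1 by ring, neg_smul, one_smul]
        · rw [a3 k l i j hkl hij (Ne.symm hki) (Ne.symm hli) (Ne.symm hkj) (Ne.symm hlj), sub_self]
          simp only [if_neg hki, if_neg hkj, if_neg hli, if_neg hlj]
          rw [show (0 : F) - 0 - 0 + 0 = 0 by ring, zero_smul]

theorem C9a (h5 : C5_stmt) : C9a_stmt := by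
  intro n hn F _ _ M hM hne b c hb hc hw
  have hn0 : 0 < n := by omega
  haveI : Nonempty (Fin n) := ⟨⟨0, hn0⟩⟩
  have hcard : Fintype.card (Fin n) = Module.finrank F (Fin n → F) := by
    rw [Module.finrank_fin_fun, Fintype.card_fin]
  set B : Module.Basis (Fin n) F (Fin n → F) := basisOfLinearIndependentOfCardEqFinrank hb hcard with hB
  have hBb : ∀ l, B l = b l := fun l => by
    rw [hB, coe_basisOfLinearIndependentOfCardEqFinrank]
  -- action of the Cartan elements on coordinates
  have hcoord : ∀ k l, k ≠ l → ∀ (u : Fin n → F) (q : Fin n), B.repr (hh M k l *ᵥ u) q =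
      ((if q = k then c else 0) - (if q = l then c else 0)) * B.repr u q := by
    intro k l hkl u q
    have h1 : (B.coord q).comp (Matrix.mulVecLin (hh M k l)) =
        ((if q = k then c else 0) - (if q = l then c else 0)) • B.coord q := by
      refine B.ext fun p => ?_
      rw [LinearMap.comp_apply, Matrix.mulVecLin_apply, hBb, hw k l hkl, map_smul,
        LinearMap.smul_apply, ← hBb, smul_eq_mul, smul_eq_mul, Module.Basis.coord_apply,
        Module.Basis.repr_self]
      by_cases hpq : p = q
      · rw [hpq]
      · rw [Finsupp.single_eq_of_ne (Ne.symm hpq), mul_zero, mul_zero]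
    have h2 := LinearMap.congr_fun h1 u
    rw [LinearMap.comp_apply, Matrix.mulVecLin_apply, LinearMap.smul_apply, smul_eq_mul,
      Module.Basis.coord_apply, Module.Basis.coord_apply] at h2
    exact h2
  have hkey : ∀ i j, i ≠ j → ∀ p q, B.repr (M i j *ᵥ b p) q ≠ 0 →
      (c = 1 ∧ q = i ∧ p = j) ∨ (c = -1 ∧ p = i ∧ q = j) := by
    intro i j hij p q hx
    have h1 : ∀ k l, k ≠ l → ((if q = k then c else 0) - (if q = l then c else 0)) =
        ((if p = k then c else 0) - (if p = l then c else 0)) + C9a_rt F k l i j := by
      intro k l hkl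
      have h2 := C9a_root h5 hn M hM k l i j hkl hij
      have h3 : hh M k l *ᵥ (M i j *ᵥ b p) =
          (((if p = k then c else 0) - (if p = l then c else 0)) + C9a_rt F k l i j) •
            (M i j *ᵥ b p) := by
        have h4 : hh M k l * M i j = M i j * hh M k l + C9a_rt F k l i j • M i j := by
          rw [← h2]; abel
        rw [Matrix.mulVec_mulVec, h4, Matrix.add_mulVec, ← Matrix.mulVec_mulVec, hw k l hkl,
          Matrix.mulVec_smul, Matrix.smul_mulVec, add_smul]
      have h4 := hcoord k l hkl (M i j *ᵥ b p) q
      rw [h3, map_smul, Finsupp.smul_apply, smul_eq_mul] at h4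
      exact (mul_right_cancel₀ hx h4).symm
    set φ : Fin n → F := fun k => (if p = k then c else 0) + (if k = i then 1 else 0) -
      (if k = j then 1 else 0) - (if q = k then c else 0) with hφ
    have h2 : ∀ k l, φ k = φ l := by
      intro k l
      by_cases hkl : k = l
      · rw [hkl]
      · have h3 := h1 k l hkl
        unfold C9a_rt at h3
        simp only [hφ]
        linear_combination (-1 : F) * h3
    have hsum : ∑ k, φ k = 0 := by
      simp only [hφ]
      rw [Finset.sum_sub_distrib, Finset.sum_sub_distrib, Finset.sum_add_distrib,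
        Finset.sum_ite_eq, Finset.sum_ite_eq, Finset.sum_ite_eq', Finset.sum_ite_eq']
      simp
    have h0 : ∀ k, φ k = 0 := by
      intro k
      have h3 : ∑ l, φ l = (n : F) * φ k := by
        rw [Finset.sum_congr rfl (fun l _ => h2 l k), Finset.sum_const, Finset.card_univ,
          Fintype.card_fin, nsmul_eq_mul]
      rw [hsum] at h3
      have h4 : (n : F) ≠ 0 := by exact_mod_cast hn0.ne'
      rcases mul_eq_zero.1 h3.symm with h5 | h5
      · exact absurd h5 h4
      · exact h5
    have hi := h0 i
    have hj := h0 j
    simp only [hφ, if_true, if_neg hij, if_neg hij.symm] at hi hj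
    by_cases hqi : q = i
    · subst hqi
      rw [if_pos rfl] at hi
      by_cases hpi : p = q
      · rw [if_pos hpi] at hi
        exact absurd hi (by intro h; apply one_ne_zero (α := F); linear_combination h)
      · rw [if_neg hpi] at hi
        left
        have hc1 : c = 1 := by linear_combination -hi
        rw [if_neg hij] at hj
        by_cases hpj : p = j
        · exact ⟨hc1, rfl, hpj⟩
        · rw [if_neg hpj] at hj
          exact absurd hj (by intro h; apply one_ne_zero (α := F); linear_combination -h)
    · rw [if_neg hqi] at hi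
      by_cases hpi : p = i
      · rw [if_pos hpi] at hi
        right
        have hc1 : c = -1 := by linear_combination hi
        have hpj : p ≠ j := fun h => hij (hpi.symm.trans h)
        rw [if_neg hpj] at hj
        by_cases hqj : q = j
        · exact ⟨hc1, hpi, hqj⟩
        · rw [if_neg hqj] at hj
          exact absurd hj (by intro h; apply one_ne_zero (α := F); linear_combination -h)
      · rw [if_neg hpi] at hi
        exact absurd hi (by intro h; apply one_ne_zero (α := F); linear_combination h)
  have h2F : (1 : F) ≠ -1 := by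
    intro h
    have : (2 : F) = 0 := by linear_combination h
    exact two_ne_zero this
  -- reconstruct vectors from coordinates
  have hrec : ∀ (u : Fin n → F) (i : Fin n), (∀ q, q ≠ i → B.repr u q = 0) →
      u = B.repr u i • b i := by
    intro u i h
    conv_lhs => rw [← B.sum_repr u]
    rw [Finset.sum_eq_single i, hBb]
    · intro q _ hq
      rw [h q hq, zero_smul]
    · intro h'; exact absurd (Finset.mem_univ i) h'
  have hzero : ∀ u : Fin n → F, (∀ q, B.repr u q = 0) → u = 0 := by
    intro u h
    rw [← B.sum_repr u]
    exact Finset.sum_eq_zero fun q _ => by rw [h q, zero_smul]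
  by_cases hc1 : c = 1
  · refine ⟨fun i j => B.repr (M i j *ᵥ b j) i, Or.inl ⟨hc1, fun i j hij l => ?_⟩⟩
    by_cases hlj : l = j
    · subst hlj
      rw [if_pos rfl]
      refine hrec _ _ fun q hq => ?_
      by_contra hx
      rcases hkey i l hij l q hx with h | h
      · exact hq h.2.1
      · exact h2F (hc1.symm.trans h.1)
    · rw [if_neg hlj]
      refine hzero _ fun q => ?_
      by_contra hx
      rcases hkey i j hij l q hx with h | h
      · exact hlj h.2.2
      · exact h2F (hc1.symm.trans h.1)
  · by_cases hc2 : c = -1
    · refine ⟨fun i j => B.repr (M i j *ᵥ b i) j, Or.inr ⟨hc2, fun i j hij l => ?_⟩⟩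
      by_cases hli : l = i
      · subst hli
        rw [if_pos rfl]
        refine hrec _ _ fun q hq => ?_
        by_contra hx
        rcases hkey l j hij l q hx with h | h
        · exact hc1 h.1
        · exact hq h.2.2
      · rw [if_neg hli]
        refine hzero _ fun q => ?_
        by_contra hx
        rcases hkey i j hij l q hx with h | h
        · exact hc1 h.1
        · exact hli h.2.1
    · exfalso
      obtain ⟨p, q, hpq, hMpq⟩ := hne
      apply hMpq
      have h1 : ∀ l, M p q *ᵥ b l = 0 := by
        intro l
        refine hzero _ fun r => ?_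
        by_contra hx
        rcases hkey p q hpq l r hx with h | h
        · exact hc1 h.1
        · exact hc2 h.1
      have h2 : Matrix.mulVecLin (M p q) = 0 := by
        refine B.ext fun l => ?_
        rw [Matrix.mulVecLin_apply, hBb, h1, LinearMap.zero_apply]
      have h3 : Matrix.mulVecLin (M p q) = Matrix.mulVecLin (0 : Matrix (Fin n) (Fin n) F) := by
        rw [h2, Matrix.mulVecLin_zero]
      exact Matrix.mulVec_injective (by
        funext u
        exact LinearMap.congr_fun h3 u)

end Pool.Agent.PR
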