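import Pool.Agent.helper5.PR.SpecK

set_option autoImplicit false

namespace Pool.Agent.PR

open Matrix

theorem K_REG : K_REG_stmt := by
  intro ℓ _ S hS
  set A := Algebra.adjoin ℤ_[ℓ] (S : Set (Om ℓ)) with hA
  have hfin : Module.Finite ℤ_[ℓ] A :=
    Module.Finite.iff_fg.2 (fg_adjoin_of_finite S.finite_toSet hS)
  have hinj : Function.Injective (algebraMap ℤ_[ℓ] (Om ℓ)) := by
    rw [IsScalarTower.algebraMap_eq ℤ_[ℓ] ℚ_[ℓ] (Om ℓ)]
    exact (algebraMap ℚ_[ℓ] (Om ℓ)).injective.comp (IsFractionRing.injective ℤ_[ℓ] ℚ_[ℓ])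
  have htf0 : Module.IsTorsionFree ℤ_[ℓ] (Om ℓ) :=
    Module.isTorsionFree_iff_algebraMap_injective.2 hinj
  have htf : Module.IsTorsionFree ℤ_[ℓ] A :=
    Function.Injective.moduleIsTorsionFree (fun z : A => (z : Om ℓ)) Subtype.val_injective
      (fun _ _ => rfl)
  have hfree : Module.Free ℤ_[ℓ] A := Module.free_of_finite_type_torsion_free'
  let b := Module.finBasis ℤ_[ℓ] A
  refine ⟨Module.finrank ℤ_[ℓ] A, fun i => ((b i : A) : Om ℓ),
    fun i => algebraMap ℤ_[ℓ] (Om ℓ) (b.repr 1 i),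
    (Algebra.leftMulMatrix b : A →ₐ[ℤ_[ℓ]] _).toRingHom, ?_, ?_⟩
  · have h1 := b.sum_repr 1
    have h2 := congrArg (fun z : A => (z : Om ℓ)) h1
    rw [dotProduct]
    have h3 : ((∑ i, (b.repr 1) i • b i : A) : Om ℓ) =
        ∑ i, ((b i : A) : Om ℓ) * algebraMap ℤ_[ℓ] (Om ℓ) (b.repr 1 i) := by
      rw [AddSubmonoidClass.coe_finsetSum]
      refine Finset.sum_congr rfl fun i _ => ?_
      rw [Subalgebra.coe_smul, Algebra.smul_def, mul_comm]
    rw [← h3]
    exact h2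
  · intro a
    funext j
    rw [vecMul, dotProduct]
    have h1 := b.sum_repr (a * b j)
    have h2 : ((∑ i, (b.repr (a * b j)) i • b i : A) : Om ℓ) = ((a * b j : A) : Om ℓ) :=
      congrArg (fun z : A => (z : Om ℓ)) h1
    have h3 : ((∑ i, (b.repr (a * b j)) i • b i : A) : Om ℓ) =
        ∑ i, ((b i : A) : Om ℓ) * algebraMap ℤ_[ℓ] (Om ℓ) (b.repr (a * b j) i) := by
      rw [AddSubmonoidClass.coe_finsetSum]
      refine Finset.sum_congr rfl fun i _ => ?_
      rw [Subalgebra.coe_smul, Algebra.smul_def, mul_comm]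
    rw [h3] at h2
    have h4 : ∀ i, ((Algebra.leftMulMatrix b : A →ₐ[ℤ_[ℓ]] _).toRingHom a) i j =
        b.repr (a * b j) i := fun i => Algebra.leftMulMatrix_eq_repr_mul b a i j
    have h5 : ∀ i, (((Algebra.leftMulMatrix b : A →ₐ[ℤ_[ℓ]] _).toRingHom a).map
        (algebraMap ℤ_[ℓ] (Om ℓ))) i j = algebraMap ℤ_[ℓ] (Om ℓ) (b.repr (a * b j) i) := by
      intro i
      rw [← h4 i]
      rfl
    refine (Finset.sum_congr rfl fun i _ => ?_).trans h2
    exact congrArg (fun z => ((b i : A) : Om ℓ) * z) (h5 i)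

end Pool.Agent.PR
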